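import Pool.Agent.Helper111.EN.Main

/-!
# Which primes must be excluded to make locally nilpotent `n`-Engel groups nilpotent

Let `U(n)` be the set of primes `p` such that finite `n`-Engel `p`-groups have unbounded class.

1. A set of primes that leaves out at least one prime is sufficient iff it contains `U(n)`.
2. The intersection of any nonempty family of sufficient sets is sufficient.
3. If some sufficient set leaves out a prime, then `U(n)` is finite, and the groups without
   elements of order in a sufficient set that leaves out a prime have bounded class.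
4. A prime `p` is in `U(n)` iff some locally nilpotent `n`-Engel `p`-group is not nilpotent.
5. Class at most `t` for all torsion-free groups, for the finite `q`-groups for one prime `q`,
   and for the finite `p`-groups for all but finitely many primes `p`, are equivalent.

The proofs: a finitely generated nilpotent group without elements of order in `π` is residually
a finite `r`-group, `r` outside `π` (if `π` leaves out a prime), and a reduced product of finite
`p`-groups of class exactly `t + 1`, for infinitely many `p`, is a torsion-free nilpotent group of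
class `t + 1`.
-/

set_option autoImplicit false

universe u

namespace Pool.Agent.Results.MP_cd48d2_al.SufficientSets

open Pool.Agent.Helper111.EN

theorem result (n : ℕ) :
    (∀ π : Set ℕ, π ⊆ {p | p.Prime} → (∃ q : ℕ, q.Prime ∧ q ∉ π) →
      (Sufficient.{u} n π ↔ ∀ p : ℕ, p.Prime → Unbounded n p → p ∈ π)) ∧
    (∀ F : Set (Set ℕ), F.Nonempty →
      (∀ π ∈ F, π ⊆ {p | p.Prime} ∧ Sufficient.{u} n π) → Sufficient.{u} n (⋂₀ F)) ∧
    (∀ π : Set ℕ, π ⊆ {p | p.Prime} → (∃ q : ℕ, q.Prime ∧ q ∉ π) → Sufficient.{u} n π →
      {p : ℕ | p.Prime ∧ Unbounded n p}.Finite ∧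
        ∃ C : ℕ, ∀ (G : Type u) [Group G], IsEngel n G → LocNil G → NoOrder π G →
          Group.nilpotencyClass G ≤ C) ∧
    (∀ p : ℕ, p.Prime → (Unbounded n p ↔ ∃ (G : Type u) (_ : Group G),
      IsPGroup p G ∧ IsEngel n G ∧ LocNil G ∧ ¬ Group.IsNilpotent G)) ∧
    (∀ t : ℕ, List.TFAE [
      ∀ (G : Type u) [Group G], (∀ x : G, x ≠ 1 → ¬ IsOfFinOrder x) → IsEngel n G → LocNil G →
        Group.IsNilpotent G ∧ Group.nilpotencyClass G ≤ t,
      ∃ q : ℕ, q.Prime ∧ ClassLE n q t,
      {p : ℕ | p.Prime ∧ ¬ ClassLE n p t}.Finite,
      ∃ E : Set ℕ, E.Finite ∧ E ⊆ {p | p.Prime} ∧ ∀ (G : Type u) [Group G], IsEngel n G →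
        LocNil G → NoOrder E G → Group.IsNilpotent G ∧ Group.nilpotencyClass G ≤ t]) :=
  ⟨sufficient_iff n, sufficient_sInter n, finite_and_bound n, unbounded_iff n, class_tfae n⟩

end Pool.Agent.Results.MP_cd48d2_al.SufficientSets
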